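import Pool.Agent.Lib.Pe04c55.SCP

set_option autoImplicit false
open Filter Topology

namespace Pool.Agent.Results.MP_e04c55_an.ValdiviaNotPlichko

universe u

/-- `K` is a Valdivia compact space. -/
def IsValdivia (K : Type) [TopologicalSpace K] : Prop :=
  CompactSpace K ∧ ∃ (Γ : Type) (h : K → Γ → Set.Icc (-1 : ℝ) 1), Topology.IsEmbedding h ∧
    Dense {k : K | {γ : Γ | (h k γ : ℝ) ≠ 0}.Countable}

/-- `(e α, f α)` is an M-basis of `X`. -/
def IsMBasis {X : Type} [NormedAddCommGroup X] [NormedSpace ℝ X] {Γ : Type u}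
    (e : Γ → X) (f : Γ → X →L[ℝ] ℝ) : Prop :=
  (∀ α, f α (e α) = 1) ∧ (∀ α β, α ≠ β → f α (e β) = 0) ∧
    (Submodule.span ℝ (Set.range e)).topologicalClosure = ⊤ ∧
    ∀ x : X, (∀ α, f α x = 0) → x = 0

/-- The set `Y` of functionals is `lam`-norming. -/
def IsNorming {X : Type} [NormedAddCommGroup X] [NormedSpace ℝ X] (lam : ℝ)
    (Y : Set (X →L[ℝ] ℝ)) : Prop :=
  ∀ x : X, ‖x‖ ≤ lam * sSup {r : ℝ | ∃ φ ∈ Y, ‖φ‖ ≤ 1 ∧ r = |φ x|}

/-- `X` is `lam`-Plichko. -/
def IsPlichko (X : Type) [NormedAddCommGroup X] [NormedSpace ℝ X] (lam : ℝ) : Prop :=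
  ∃ (Γ : Type u) (e : Γ → X) (f : Γ → X →L[ℝ] ℝ), IsMBasis e f ∧
    IsNorming lam {φ : X →L[ℝ] ℝ | {α : Γ | φ (e α) ≠ 0}.Countable}

/-- There is a real Banach space `X` whose dual ball is Valdivia in the weak-star topology and
which is not `lam`-Plichko for any `lam ≥ 1`; moreover the identity of some separable closed
subspace `Y` of `X` is not the restriction of a bounded operator on `X` with separable range. -/
theorem result :
    ∃ (X : Type) (_ : NormedAddCommGroup X) (_ : NormedSpace ℝ X), CompleteSpace X ∧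
      IsValdivia (WeakDual.toStrongDual ⁻¹' Metric.closedBall (0 : StrongDual ℝ X) 1 :
        Set (WeakDual ℝ X)) ∧
      (∀ lam : ℝ, 1 ≤ lam → ¬ IsPlichko.{u} X lam) ∧
      ∃ Y : Submodule ℝ X, IsClosed (Y : Set X) ∧
        TopologicalSpace.IsSeparable (Y : Set X) ∧
        ∀ T : X →L[ℝ] X, (∀ y ∈ Y, T y = y) →
          ¬ TopologicalSpace.IsSeparable (Set.range T) := by
  refine ⟨Pool.Agent.Lib.Pe04c55.X, inferInstance, inferInstance, inferInstance, ?_, ?_,
    Pool.Agent.Lib.Pe04c55.XC Pool.Agent.Lib.Pe04c55.A0,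
    Submodule.isClosed_topologicalClosure _,
    Pool.Agent.Lib.Pe04c55.isSeparable_XC Pool.Agent.Lib.Pe04c55.countable_A0,
    fun T hT hs => Pool.Agent.Lib.Pe04c55.not_separable_ext T hT hs⟩
  · -- Valdivia
    have hset : (WeakDual.toStrongDual ⁻¹'
        Metric.closedBall (0 : StrongDual ℝ Pool.Agent.Lib.Pe04c55.X) 1 :
        Set (WeakDual ℝ Pool.Agent.Lib.Pe04c55.X))
        = {φ : WeakDual ℝ Pool.Agent.Lib.Pe04c55.X | ∀ x, |φ x| ≤ ‖x‖} := by
      ext φ
      simp only [Set.mem_ofPred_eq, Set.mem_preimage, mem_closedBall_zero_iff]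
      constructor
      · intro hφ x
        have h2 := (WeakDual.toStrongDual φ).le_opNorm x
        calc |φ x| = ‖(WeakDual.toStrongDual φ) x‖ := rfl
          _ ≤ ‖WeakDual.toStrongDual φ‖ * ‖x‖ := h2
          _ ≤ 1 * ‖x‖ := mul_le_mul_of_nonneg_right hφ (norm_nonneg _)
          _ = ‖x‖ := one_mul _
      · intro hφ
        apply ContinuousLinearMap.opNorm_le_bound _ zero_le_one
        intro x
        rw [one_mul]
        exact hφ x
    rw [hset]
    refine ⟨(inferInstance : CompactSpace Pool.Agent.Lib.Pe04c55.Ball), ?_⟩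
    obtain ⟨Γ, h, hemb, hb, hd⟩ := Pool.Agent.Lib.Pe04c55.valdivia
    refine ⟨Γ, fun b γ => ⟨h b γ, abs_le.1 (hb b γ)⟩, ?_, hd⟩
    have hc : Continuous (fun (b : Pool.Agent.Lib.Pe04c55.Ball) (γ : Γ) =>
        (⟨h b γ, abs_le.1 (hb b γ)⟩ : Set.Icc (-1 : ℝ) 1)) := by
      apply continuous_pi
      intro γ
      exact Continuous.subtype_mk ((continuous_apply γ).comp hemb.continuous) _
    have hg : Continuous (fun (z : Γ → Set.Icc (-1 : ℝ) 1) (γ : Γ) => (z γ : ℝ)) := by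
      apply continuous_pi
      intro γ
      exact continuous_subtype_val.comp (continuous_apply γ)
    exact Topology.IsEmbedding.of_comp hc hg hemb
  · -- not Plichko
    rintro lam hlam ⟨Γ, e, f, ⟨-, -, hdense, -⟩, hnorm⟩
    have hlam0 : 0 < lam := by linarith
    have hd' : (Submodule.span ℝ (Set.range
        (fun i : Set.range e => (i : Pool.Agent.Lib.Pe04c55.X)))).topologicalClosure = ⊤ := by
      rw [Subtype.range_coe]; exact hdense
    obtain ⟨A, hA0, hA, P, hP1, hP2⟩ := Pool.Agent.Lib.Pe04c55.exists_proj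
      (fun i : Set.range e => (i : Pool.Agent.Lib.Pe04c55.X)) (lam⁻¹) hd' (by
        intro x r hr
        have h1 := hnorm x
        set S : Set ℝ := {r : ℝ | ∃ φ ∈ {φ : Pool.Agent.Lib.Pe04c55.X →L[ℝ] ℝ |
            {α : Γ | φ (e α) ≠ 0}.Countable}, ‖φ‖ ≤ 1 ∧ r = |φ x|} with hS
        have hne : S.Nonempty := ⟨0, 0, by simp, by simp, by simp⟩
        have h2 : r < sSup S := by
          refine lt_of_lt_of_le hr ?_
          rw [inv_mul_le_iff₀ hlam0]
          exact h1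
        obtain ⟨s, ⟨φ, hφ1, hφ2, rfl⟩, hs⟩ := exists_lt_of_lt_csSup hne h2
        refine ⟨φ, ?_, hφ2, hs⟩
        have h3 : {i : Set.range e | φ (i : Pool.Agent.Lib.Pe04c55.X) ≠ 0}
            ⊆ (fun α => (⟨e α, ⟨α, rfl⟩⟩ : Set.range e)) '' {α : Γ | φ (e α) ≠ 0} := by
          rintro ⟨_, ⟨α, rfl⟩⟩ hi
          exact ⟨α, hi, rfl⟩
        exact (hφ1.image _).mono h3) (inv_pos.2 hlam0)
    exact Pool.Agent.Lib.Pe04c55.not_proj hA0 hA P hP1 hP2

end Pool.Agent.Results.MP_e04c55_an.ValdiviaNotPlichko
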